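import Pool.Agent.N748.MJ.Fin

set_option autoImplicit false

/-!
# The exact law of zeta near the critical line at all large deviation scales
-/

namespace Pool.Agent.Results.MP_f9aece_nt.ExactLaw

open MeasureTheory Filter Topology

/-- the arithmetic factor of the moment conjecture, for all real `k`,
`a(k) = ∏_p (1 - 1/p)^{k²} Σ_m (k (k+1) ... (k+m-1) / m!)² p^{-m}` -/
noncomputable def ak (k : ℝ) : ℝ :=
  ∏' p : Nat.Primes, ((1 - 1 / (p : ℝ)) ^ (k ^ 2) *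
    ∑' m : ℕ, (∏ i ∈ Finset.range m, (k + i) / ((i : ℝ) + 1)) ^ 2 * (1 / (p : ℝ)) ^ m)

/-- the value of zeta at distance `d` from the critical line and height `t` -/
noncomputable def z (d t : ℝ) : ℂ := riemannZeta (1 / 2 + d + t * Complex.I)

/-- the proportion of a set of heights in `[0, T]` -/
noncomputable def P (T : ℝ) (S : Set ℝ) : ℝ := (1 / T) * (volume {t : ℝ | 0 ≤ t ∧ t ≤ T ∧ t ∈ S}).toReal

/-- the square root of `π log (1/(2d))` -/
noncomputable def w (d : ℝ) : ℝ := Real.sqrt (Real.pi * Real.log (1 / (2 * d)))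

theorem result (d : ℝ → ℝ) (hd0 : ∀ᶠ T : ℝ in atTop, 0 < d T) (hd : Tendsto d atTop (𝓝 0))
    (hdL : Tendsto (fun T : ℝ => d T * Real.log T / Real.log (1 / d T) ^ 2) atTop atTop) (V : ℝ) :
    (∀ h : ℂ → ℝ, Measurable h → (∃ S : Set ℂ, volume S = 0 ∧ ∀ z, z ≠ 0 → z ∉ S → ContinuousAt h z) →
      (∃ C : ℝ, ∀ z, |h z| ≤ C) → (∃ C : ℝ, ∀ z, z ≠ 0 → |h z| * (1 + Real.log ‖z‖ ^ 2) ≤ C * ‖z‖ ^ (2 * V)) →
      Tendsto (fun T : ℝ => w (d T) * (2 * d T) ^ (-(V ^ 2)) *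
        ((1 / T) * ∫ t in (0:ℝ)..T, h ((((2 * d T) ^ V : ℝ) : ℂ) * z (d T) t))) atTop
        (𝓝 (ak V / (2 * Real.pi) * ∫ z : ℂ, ‖z‖ ^ (-(2 * V) - 2) * h z))) ∧
    (0 < V → Tendsto (fun T : ℝ => P T {t | (2 * d T) ^ (-V) < ‖z (d T) t‖} /
      (ak V * (2 * d T) ^ (V ^ 2) / (2 * V * w (d T)))) atTop (𝓝 1)) ∧
    (V < 0 → Tendsto (fun T : ℝ => P T {t | ‖z (d T) t‖ < (2 * d T) ^ (-V)} /
      (ak V * (2 * d T) ^ (V ^ 2) / (2 * |V| * w (d T)))) atTop (𝓝 1)) := by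
  have hA : Pool.Agent.N748.MG.Ad d := ⟨hd0, hd, hdL⟩
  have hak : ∀ V : ℝ, ak V = Pool.Agent.N748.MG.akR V := fun V => rfl
  have hpos : 0 < ak V := (Pool.Agent.N748.MG.aC_akR V).1
  have hsmall : ∀ᶠ T : ℝ in atTop, d T < 1 / 2 := hd.eventually (gt_mem_nhds (by norm_num))
  refine ⟨fun h hm hS hb hb2 => ?_, fun hV => ?_, fun hV => ?_⟩
  · have h1 := Pool.Agent.N748.MJ.ld2F d hA V h hm hS hb hb2
    rw [Pool.Agent.N748.MG.aC_re, ← hak] at h1
    exact h1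
  · have h := Pool.Agent.N748.MG.utF d hA V hV
    rw [Pool.Agent.N748.MG.aC_re, ← hak] at h
    have hkV : (0:ℝ) < 2 * V := by linarith
    have h2 := h.div_const (ak V / (2 * V))
    rw [div_self (div_pos hpos hkV).ne'] at h2
    refine h2.congr' ?_
    filter_upwards [hd0, hsmall] with T hT hT2
    have h3 : (0:ℝ) < 2 * d T := by linarith
    have h4 : (2 * d T) ^ (V ^ 2) = ((2 * d T) ^ (-(V ^ 2)))⁻¹ := by
      rw [← Real.rpow_neg h3.le, neg_neg]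
    have h5 : (0:ℝ) < (2 * d T) ^ (-(V ^ 2)) := Real.rpow_pos_of_pos h3 _
    have h7 : 0 < Real.log (1 / (2 * d T)) := Real.log_pos (by rw [lt_div_iff₀ h3]; linarith)
    have h8 : 0 < w (d T) := Real.sqrt_pos.2 (by positivity)
    change w (d T) * (2 * d T) ^ (-(V ^ 2)) * P T {t | (2 * d T) ^ (-V) < ‖z (d T) t‖} / (ak V / (2 * V)) = _
    rw [h4]
    field_simp
  · have h := Pool.Agent.N748.MG.ltF d hA V hV
    rw [Pool.Agent.N748.MG.aC_re, ← hak] at h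
    have hkV : (0:ℝ) < 2 * (-V) := by linarith
    have h2 := h.div_const (ak V / (2 * (-V)))
    rw [div_self (div_pos hpos hkV).ne'] at h2
    refine h2.congr' ?_
    filter_upwards [hd0, hsmall] with T hT hT2
    have h3 : (0:ℝ) < 2 * d T := by linarith
    have h4 : (2 * d T) ^ (V ^ 2) = ((2 * d T) ^ (-(V ^ 2)))⁻¹ := by
      rw [← Real.rpow_neg h3.le, neg_neg]
    have h5 : (0:ℝ) < (2 * d T) ^ (-(V ^ 2)) := Real.rpow_pos_of_pos h3 _
    have h7 : 0 < Real.log (1 / (2 * d T)) := Real.log_pos (by rw [lt_div_iff₀ h3]; linarith)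
    have h8 : 0 < w (d T) := Real.sqrt_pos.2 (by positivity)
    rw [abs_of_neg hV]
    change w (d T) * (2 * d T) ^ (-(V ^ 2)) * P T {t | ‖z (d T) t‖ < (2 * d T) ^ (-V)} / (ak V / (2 * (-V))) = _
    rw [h4]
    have h9 : -V ≠ 0 := by linarith
    field_simp

end Pool.Agent.Results.MP_f9aece_nt.ExactLaw
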