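import Pool.Agent.N798.G17

set_option autoImplicit false

/-!
# MP_f9aece_nt: the moments of zeta are determined by the samples at `x + α n^c`, for almost every `α`

Let `β > 0`, `x` real and `a(T) = (1/T) ∫_0^T |ζ(1/2 + ix + it)|^β dt`. For a real `c ≥ 1` and `α > 0` let
`A(N) = (1/N) ∑_{n ≤ N} |ζ(1/2 + ix + iα n^c)|^β`.

Main theorem. Suppose that `0 < β`, `c ≥ 1` and `c · max(1, (β+1)/3) < 2` (so `c < 2` for `β ≤ 2`, and `c = 1` is
allowed for all `β < 5`). Then there is `η > 0` such that for almost every `α > 0`: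

* for all large `N` the sum `∑_{n ≤ N} |ζ(1/2 + ix + iα n^c)|^β` lies between
  `∫_0^{N - N^(1-η)} |ζ(1/2 + ix + iα y^c)|^β dy - N^(1-η)` and
  `∫_0^{N + N^(1-η)} |ζ(1/2 + ix + iα y^c)|^β dy + N^(1-η)`;
* for all real `s ≥ 0` and `κ`: `a(T)/(log T)^s → κ` if and only if `A(N)/(c log N)^s → κ`; in particular
  (`s = β²/4`) the asymptotic formula of Q1 for this `β` holds if and only if it holds for the discrete averages;
* for all real `s ≥ 0`: `a(T) ≪ (log T)^s` if and only if `A(N) ≪ (log N)^s`.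

The same is true for every `β > 0` and `c ≥ 1` for which the moment of order `2β` satisfies
`∫_0^T |ζ(1/2+it)|^(2β) dt ≪ T^(M+ε)` for all `ε > 0` with some `M ≥ 1`, `c M < 2`.

The proof: a bound for the variance in `α` of the sampling error, from the formula of Poisson and Plancherel's
theorem, needs only the mean squares of `|ζ|^β` and of its derivative along the sequence; the mean square of the
derivative is bounded with the help of a bound of `ζ` and `ζ'` on the critical line by the mean of `|ζ|` over a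
short interval (a power `t^ε` is lost), the fourth moment and the bound of Weyl, Hardy and Littlewood.
-/

namespace Pool.Agent.Results.MP_f9aece_nt.MomentSampling

open Complex MeasureTheory Filter Topology Set
open scoped Real

noncomputable section

/-- The quantity `a(T) = (1/T) ∫_0^T |ζ(1/2 + ix + it)|^β dt` of the problem. -/
def a (β x T : ℝ) : ℝ := 1 / T * ∫ t in (0:ℝ)..T, ‖riemannZeta (1 / 2 + x * I + t * I)‖ ^ β

/-- The sum over the samples `∑_{n ≤ N} |ζ(1/2 + ix + iα n^c)|^β`. -/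
def S (β x c α : ℝ) (N : ℕ) : ℝ :=
  ∑ n ∈ Finset.Icc 1 N, ‖riemannZeta (1 / 2 + x * I + ((α * (n:ℝ) ^ c : ℝ) : ℂ) * I)‖ ^ β

/-- The discrete average `A(N) = (1/N) ∑_{n ≤ N} |ζ(1/2 + ix + iα n^c)|^β`. -/
def A (β x c α : ℝ) (N : ℕ) : ℝ := 1 / N * S β x c α N

/-- The integral `∫_0^Y |ζ(1/2 + ix + iα y^c)|^β dy` corresponding to the sum. -/
def J (β x c α Y : ℝ) : ℝ := ∫ y in (0:ℝ)..Y, ‖riemannZeta (1 / 2 + x * I + ((α * y ^ c : ℝ) : ℂ) * I)‖ ^ β

/-- The moment of order `β` is determined by the samples at `x + α n^c`, for almost every `α > 0`. -/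
def Sampled (β x c : ℝ) : Prop := ∃ η : ℝ, 0 < η ∧ η < 1 ∧ ∀ᵐ α : ℝ, 0 < α →
  (∀ᶠ N : ℕ in atTop, J β x c α (N - (N:ℝ) ^ (1 - η)) - (N:ℝ) ^ (1 - η) ≤ S β x c α N ∧
    S β x c α N ≤ J β x c α (N + (N:ℝ) ^ (1 - η)) + (N:ℝ) ^ (1 - η)) ∧
  (∀ s κ : ℝ, 0 ≤ s → (Tendsto (fun T : ℝ => a β x T / Real.log T ^ s) atTop (𝓝 κ) ↔
    Tendsto (fun N : ℕ => A β x c α N / (c * Real.log N) ^ s) atTop (𝓝 κ))) ∧
  (∀ s : ℝ, 0 ≤ s → ((∃ C : ℝ, ∀ᶠ T : ℝ in atTop, a β x T ≤ C * Real.log T ^ s) ↔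
    (∃ C : ℝ, ∀ᶠ N : ℕ in atTop, A β x c α N ≤ C * Real.log N ^ s)))

lemma Z_shift (x t : ℝ) : ‖riemannZeta (1 / 2 + x * I + t * I)‖ = Pool.Agent.R303.LM.Z (x + t) := by
  unfold Pool.Agent.R303.LM.Z
  congr 2
  push_cast
  ring

open Pool.Agent.N798.G in
lemma core {β c M : ℝ} (hβ : 0 < β) (hc : 1 ≤ c) (hM : 1 ≤ M) (hcM : c * M < 2)
    (h : Pool.Agent.N798.MomExp (2 * β) M) (x : ℝ) : Sampled β x c := by
  obtain ⟨η, hη0, hη1, hae⟩ := sampling hβ hc hM hcM h x
  refine ⟨η, hη0, hη1, ?_⟩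
  have hc0 : 0 < c := by linarith
  filter_upwards [hae] with α hα hα0
  have hSd := hα hα0
  have eS : ∀ N : ℕ, S β x c α N = Ss β x c α N := fun N => by
    unfold S Ss
    exact Finset.sum_congr rfl fun n _ => by rw [Z_shift]
  have eJ : ∀ Y : ℝ, J β x c α Y = Is β x c α Y := fun Y => by
    unfold J Is
    exact intervalIntegral.integral_congr fun y _ => by simp only [Z_shift]
  have ea : ∀ T : ℝ, a β x T = 1 / T * As β x T := fun T => by
    unfold a As
    simp only [Z_shift]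
  have hmono := Is_mono (x := x) (α := α) hβ hc
  refine ⟨?_, fun s κ hs => ?_, fun s hs => ?_⟩
  · simp only [eS, eJ]
    exact hSd
  · have h1 := avg_iff (x := x) hβ hc hα0 hs (κ := κ)
    have h2 := tends_iff hmono hη0 hη1 hSd hs (κ := κ * c ^ s)
    have hcs : c ^ s ≠ 0 := by positivity
    have e1 : Tendsto (fun T : ℝ => a β x T / Real.log T ^ s) atTop (𝓝 κ) ↔
        Tendsto (fun T => As β x T / Ps 1 s T) atTop (𝓝 κ) := by
      refine tendsto_congr fun T => ?_
      rw [ea]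
      unfold Ps
      rw [Real.rpow_one, one_div, inv_mul_eq_div, div_div]
    have e2 : Tendsto (fun N : ℕ => A β x c α N / (c * Real.log N) ^ s) atTop (𝓝 κ) ↔
        Tendsto (fun N : ℕ => Ss β x c α N / Ps 1 s N) atTop (𝓝 (κ * c ^ s)) := by
      have e3 : ∀ᶠ N : ℕ in atTop, A β x c α N / (c * Real.log N) ^ s = Ss β x c α N / Ps 1 s N / c ^ s := by
        filter_upwards [eventually_gt_atTop 1] with N hN
        have hN' : (1:ℝ) < N := by exact_mod_cast hN
        have hl := Real.log_pos hN'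
        unfold A Ps
        rw [eS, Real.rpow_one, Real.mul_rpow hc0.le hl.le, one_div, inv_mul_eq_div, div_div, div_div]
        congr 1; ring
      constructor
      · intro h3
        refine ((h3.congr' e3).mul_const (c ^ s)).congr fun N => ?_
        rw [div_mul_cancel₀ _ hcs]
      · intro h3
        have h4 := h3.div_const (c ^ s)
        rw [mul_div_assoc, div_self hcs, mul_one] at h4
        exact h4.congr' (e3.mono fun N hN => hN.symm)
    rw [e1, e2, h1, h2]
  · have h1 := avg_bdd (x := x) hβ hc hα0 hs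
    have h2 := bdd_iff hmono hη0 hη1 hSd hs
    have e1 : (∃ C : ℝ, ∀ᶠ T : ℝ in atTop, a β x T ≤ C * Real.log T ^ s) ↔
        (∃ C, ∀ᶠ T in atTop, As β x T ≤ C * Ps 1 s T) := by
      refine exists_congr fun C => ?_
      refine eventually_congr ?_
      filter_upwards [eventually_gt_atTop (0:ℝ)] with T hT
      rw [ea]
      unfold Ps
      rw [Real.rpow_one, one_div, inv_mul_le_iff₀ hT]
      constructor <;> intro h <;> linarith
    have e2 : (∃ C : ℝ, ∀ᶠ N : ℕ in atTop, A β x c α N ≤ C * Real.log N ^ s) ↔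
        (∃ C, ∀ᶠ N : ℕ in atTop, Ss β x c α N ≤ C * Ps 1 s N) := by
      refine exists_congr fun C => ?_
      refine eventually_congr ?_
      filter_upwards [eventually_gt_atTop 0] with N hN
      have hN' : (0:ℝ) < N := by exact_mod_cast hN
      unfold A Ps
      rw [eS, Real.rpow_one, one_div, inv_mul_le_iff₀ hN']
      constructor <;> intro h <;> linarith
    rw [e1, e2, h1, h2]

/-- the moment bound from zero -/
lemma mom_of {β M : ℝ} (hβ : 0 < β) (h : ∀ ε : ℝ, 0 < ε → ∃ C : ℝ, ∀ T : ℝ, 1 ≤ T →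
      ∫ t in (0:ℝ)..T, ‖riemannZeta (1 / 2 + t * I)‖ ^ (2 * β) ≤ C * T ^ (M + ε)) :
    Pool.Agent.N798.MomExp (2 * β) M := by
  intro ε hε
  obtain ⟨C, hC⟩ := h ε hε
  refine ⟨C, fun T hT => le_trans ?_ (hC T hT)⟩
  have hc := Pool.Agent.N798.Zp_cont (p := 2 * β) (by linarith)
  have h0 : 0 ≤ ∫ t in (0:ℝ)..1, Pool.Agent.R303.LM.Z t ^ (2 * β) :=
    intervalIntegral.integral_nonneg zero_le_one fun t _ => Real.rpow_nonneg (norm_nonneg _) _
  have h1 := intervalIntegral.integral_add_adjacent_intervals (hc.intervalIntegrable (μ := volume) 0 1)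
    (hc.intervalIntegrable (μ := volume) 1 T)
  change _ ≤ ∫ t in (0:ℝ)..T, Pool.Agent.R303.LM.Z t ^ (2 * β)
  linarith

/-- **The moments of zeta are determined by the samples at `x + α n^c`, for almost every `α`.** Part 1 is
unconditional; part 2 allows every `β` for which a moment bound of order `2β` is supposed. -/
theorem result :
    (∀ β x c : ℝ, 0 < β → 1 ≤ c → c * max 1 ((β + 1) / 3) < 2 → Sampled β x c) ∧
    (∀ β x c M : ℝ, 0 < β → 1 ≤ c → 1 ≤ M → c * M < 2 →
      (∀ ε : ℝ, 0 < ε → ∃ C : ℝ, ∀ T : ℝ, 1 ≤ T →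
        ∫ t in (0:ℝ)..T, ‖riemannZeta (1 / 2 + t * I)‖ ^ (2 * β) ≤ C * T ^ (M + ε)) → Sampled β x c) :=
  ⟨fun _ x _ hβ hc hcm => core hβ hc (le_max_left _ _) hcm (Pool.Agent.N798.G.mom_uncond hβ) x,
    fun _ x _ _ hβ hc hM hcM h => core hβ hc hM hcM (mom_of hβ h) x⟩

end

end Pool.Agent.Results.MP_f9aece_nt.MomentSampling
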