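import Mathlib
import Pool.Agent.R313.FN.F
import Pool.Agent.N534.SetsLim

set_option autoImplicit false

/-!
# MP_f9aece_nt: the local landscape of zeta as a random continuous function, and the moments of the local maxima, near the critical line

Let `δ(T) → 0`, `δ(T) log T → ∞`, `0 < β ≤ 4` and let `p`, `q` be real. For `t ∈ [0, T]` let `L_t` be the continuous
function `L_t(x) = |ζ(1/2 + δ + i (t + (p + q x) δ))|` on `[0, 1]`. There is a probability measure `ν` on the space of
the continuous functions on `[0, 1]`, the law of the exponential of a Gaussian process with continuous paths, with the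
mean `-(β/4) log (1 + a²/4)` and the covariance `(log (1 + a²/4) + log (1 + b²/4) - log (1 + (a-b)²/4)) / 4` at
`a = p + q x`, `b = p + q y`, such that

`(2δ)^(β²/4) (1/T) ∫_0^T |ζ(1/2 + δ + it)|^β F(L_t / |ζ(1/2 + δ + it)|) dt → a(β/2) ∫ F dν`

for EVERY continuous functional `F` on `C[0, 1]` with `|F(f)| ≤ A (1 + max |f| ^ β)`; here `a(β/2)` is the arithmetic
factor of the moment conjecture. The same holds if `F` is the indicator function of a Borel set `B` of `C[0, 1]` with
`ν(∂B) = 0`. In particular the moments of the local maxima have the asymptotic behaviour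

`(2δ)^(β²/4) (1/T) ∫_0^T max_{0 ≤ x ≤ 1} |ζ(1/2 + δ + i (t + (p + q x) δ))| ^ β dt → a(β/2) ∫ max f ^ β dν(f) < ∞`.

(The starting hand-ins treat the values at finitely many points `p + q x` only.)
-/

open Filter Topology MeasureTheory ProbabilityTheory

namespace Pool.Agent.Results.MP_f9aece_nt.RandomFunctionLocalMaxima

/-- the arithmetic factor of the moment conjecture for `|ζ|^(2k)` -/
noncomputable def ak (k : ℝ) : ℝ :=
  ∏' p : Nat.Primes, ((1 - 1 / (p : ℝ)) ^ (k ^ 2) *
    ∑' m : ℕ, (Real.Gamma (k + m) / (Real.Gamma k * (m.factorial : ℝ))) ^ 2 / (p : ℝ) ^ m)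

/-- the mean at `a` -/
noncomputable def mean (β a : ℝ) : ℝ := -(β / 4) * Real.log (1 + (a / 2) ^ 2)

/-- the covariance at `a, b` -/
noncomputable def cov (a b : ℝ) : ℝ :=
  (Real.log (1 + (a / 2) ^ 2) + Real.log (1 + (b / 2) ^ 2) - Real.log (1 + ((a - b) / 2) ^ 2)) / 4

/-- `|ζ(1/2 + δ + i (t + a δ))|` -/
noncomputable def z (δ a t : ℝ) : ℝ := ‖riemannZeta (1 / 2 + δ + Complex.I * ((t + a * δ : ℝ) : ℂ))‖

open Classical in
/-- the function `x ↦ |ζ(1/2 + δ + i (t + (p + q x) δ))|` on `[0, 1]` (it is continuous for `δ < 1/2`) -/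
noncomputable def path (δ p q t : ℝ) : C(unitInterval, ℝ) :=
  if h : Continuous (fun x : unitInterval => z δ (p + q * x) t) then ⟨fun x => z δ (p + q * x) t, h⟩ else 0

/-- The probability measure `ν` on `C[0, 1]` (with its Borel sets) is the law of the exponential of a Gaussian process
with the mean `mean β (p + q x)` and the covariance `cov (p + q x) (p + q y)`: for all `x_1, ..., x_n` in `[0, 1]` the
law of `(f(x_1), ..., f(x_n))` is the image under the exponential of a normal law with these means and covariances. -/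
def IsLandscapeLaw (β p q : ℝ) (ν : Measure C(unitInterval, ℝ)) : Prop :=
  ∀ (n : ℕ) (x : Fin n → unitInterval), ∃ ρ : Measure (Fin n → ℝ), IsProbabilityMeasure ρ ∧
    (∀ v : Fin n → ℝ, 0 ≤ ∑ i, ∑ j, v i * v j * cov (p + q * x i) (p + q * x j) ∧
      ρ.map (fun y => ∑ j, v j * y j) = gaussianReal (∑ j, v j * mean β (p + q * x j))
        (∑ i, ∑ j, v i * v j * cov (p + q * x i) (p + q * x j)).toNNReal) ∧
    ν.map (fun f j => f (x j)) = ρ.map (fun y j => Real.exp (y j))

lemma z_eq (δ a t : ℝ) : z δ a t = Pool.Agent.Y753.SHR.za δ a t := by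
  unfold z Pool.Agent.Y753.SHR.za
  congr 2
  ring

lemma path_eq {δ : ℝ} (h : δ < 1 / 2) (p q t : ℝ) : path δ p q t = Pool.Agent.R313.FN.zp δ p q t := by
  have hc : Continuous (fun x : unitInterval => z δ (p + q * x) t) := by
    have e : (fun x : unitInterval => z δ (p + q * x) t) = fun x => Pool.Agent.R313.FN.zp δ p q t x := by
      funext x
      rw [Pool.Agent.R313.FN.zp_apply p q h, z_eq]
    rw [e]
    exact (Pool.Agent.R313.FN.zp δ p q t).continuous
  unfold path
  rw [dif_pos hc]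
  ext x
  rw [Pool.Agent.R313.FN.zp_apply p q h]
  exact z_eq _ _ _

lemma lc_eq {k : ℝ} (hk : 0 < k) (m : ℕ) :
    Real.Gamma (k + m) / (Real.Gamma k * (m.factorial : ℝ)) = Pool.Agent.H306R2.lc k m := by
  have hG : Real.Gamma k ≠ 0 := (Real.Gamma_pos_of_pos hk).ne'
  induction m with
  | zero =>
    unfold Pool.Agent.H306R2.lc
    simp [hG]
  | succ m ih =>
    have h1 : Pool.Agent.H306R2.lc k (m + 1) = Pool.Agent.H306R2.lc k m * ((k + m) / ((m : ℝ) + 1)) := by
      unfold Pool.Agent.H306R2.lc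
      rw [Finset.prod_range_succ]
    have hkm : k + (m : ℝ) ≠ 0 := by positivity
    have h2 : Real.Gamma (k + ((m + 1 : ℕ) : ℝ)) = (k + m) * Real.Gamma (k + m) := by
      rw [← Real.Gamma_add_one hkm]
      congr 1
      push_cast
      ring
    have hf : (m.factorial : ℝ) ≠ 0 := by positivity
    rw [h1, ← ih, h2, Nat.factorial_succ]
    push_cast
    field_simp

lemma ak_eq {k : ℝ} (hk : 0 < k) : ak k = Pool.Agent.H306R2.aF k := by
  unfold ak Pool.Agent.H306R2.aF
  refine tprod_congr fun p => ?_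
  simp_rw [lc_eq hk, one_div, inv_pow, div_eq_mul_inv]

/-- **The functional limit theorem** for the local landscape of zeta under the moment measures of order `β ≤ 4` near the
critical line, **and the moments of the local maxima**. -/
theorem result (δ : ℝ → ℝ) (hδ : Tendsto δ atTop (𝓝 0)) (hδL : Tendsto (fun T : ℝ => δ T * Real.log T) atTop atTop)
    (β : ℝ) (hβ : 0 < β) (hβ4 : β ≤ 4) (p q : ℝ) :
    0 < ak (β / 2) ∧ ∃ ν : Measure C(unitInterval, ℝ), IsProbabilityMeasure ν ∧ IsLandscapeLaw β p q ν ∧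
      (∀ (F : C(unitInterval, ℝ) → ℝ) (A : ℝ), Continuous F → (∀ f, |F f| ≤ A * (1 + ‖f‖ ^ β)) →
        Tendsto (fun T : ℝ => (2 * δ T) ^ (β ^ 2 / 4) * (1 / T * ∫ t in Set.Icc 0 T,
          z (δ T) 0 t ^ β * F ((z (δ T) 0 t)⁻¹ • path (δ T) p q t))) atTop (𝓝 (ak (β / 2) * ∫ f, F f ∂ν))) ∧
      (∀ B : Set C(unitInterval, ℝ), MeasurableSet B → ν (frontier B) = 0 →
        Tendsto (fun T : ℝ => (2 * δ T) ^ (β ^ 2 / 4) * (1 / T * ∫ t in Set.Icc 0 T,
          z (δ T) 0 t ^ β * B.indicator (fun _ => (1 : ℝ)) ((z (δ T) 0 t)⁻¹ • path (δ T) p q t))) atTop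
            (𝓝 (ak (β / 2) * ν.real B))) ∧
      Integrable (fun f : C(unitInterval, ℝ) => ‖f‖ ^ β) ν ∧
      Tendsto (fun T : ℝ => (2 * δ T) ^ (β ^ 2 / 4) * (1 / T * ∫ t in Set.Icc 0 T,
        (⨆ x : unitInterval, z (δ T) (p + q * x) t) ^ β)) atTop (𝓝 (ak (β / 2) * ∫ f, ‖f‖ ^ β ∂ν)) := by
  have hb2 : 0 < β / 2 := by linarith
  rw [ak_eq hb2]
  refine ⟨Pool.Agent.H306R2.aF_pos hb2, ?_⟩
  obtain ⟨ν, h1, h2, h3, h4⟩ := Pool.Agent.R313.FN.path_main hδ hδL hβ hβ4 p q
  have hsm : ∀ᶠ T in atTop, δ T < 1 / 2 := hδ.eventually (gt_mem_nhds (by norm_num))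
  have e0 : (β / 2) ^ 2 = β ^ 2 / 4 := by ring
  rw [e0] at h3 h4
  refine ⟨(ν : Measure C(unitInterval, ℝ)), inferInstance, fun n x => ?_, fun F A hF hFA => ?_,
    fun B hBm hB => ?_, h2, ?_⟩
  · obtain ⟨ρ, hρ, hm⟩ := h1 n x
    refine ⟨(ρ : Measure (Fin n → ℝ)), inferInstance, fun v => ?_, hm⟩
    exact hρ v
  · refine (h3 F A hF hFA).congr' ?_
    filter_upwards [hsm] with T hT
    simp_rw [z_eq, path_eq hT]
    ring
  · have hpos : ∀ᶠ T in atTop, 0 < δ T := by
      filter_upwards [hδL.eventually_gt_atTop 0, eventually_gt_atTop 1] with T hT hT1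
      exact (pos_iff_pos_of_mul_pos hT).mpr (Real.log_pos hT1)
    have h5 := Pool.Agent.N534.SetsLim.sets (E := C(unitInterval, ℝ))
      (w := fun T => (2 * δ T) ^ (β ^ 2 / 4) / T)
      (g := fun T t => Pool.Agent.Y753.SHR.za (δ T) 0 t ^ β)
      (P := fun T t => (Pool.Agent.Y753.SHR.za (δ T) 0 t)⁻¹ • Pool.Agent.R313.FN.zp (δ T) p q t)
      (m := fun T => volume.restrict (Set.Icc 0 T)) (ν := (ν : Measure C(unitInterval, ℝ)))
      (Pool.Agent.H306R2.aF_pos hb2) (by
        filter_upwards [hpos, eventually_gt_atTop 0] with T a1 a2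
        positivity) (by
        filter_upwards [hsm] with T a1
        exact ⟨(((Pool.Agent.Y753.SHR.za_cont a1 0).rpow_const
          fun _ => Or.inr hβ.le).continuousOn.integrableOn_compact isCompact_Icc),
          fun t => Real.rpow_nonneg (Pool.Agent.Y753.SHR.za_nonneg _ _ _) _⟩) (by
        filter_upwards [hsm] with T a1
        exact ((Pool.Agent.Y753.SHR.za_cont a1 0).measurable.inv).smul
          (Pool.Agent.R313.FN.zp_meas p q a1))
      (fun F hF hF1 => h3 F 1 hF fun f => by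
        have : 0 ≤ ‖f‖ ^ β := by positivity
        have := hF1 f
        linarith) hB hBm
    refine h5.congr' ?_
    filter_upwards [hsm] with T hT
    simp_rw [z_eq, path_eq hT]
    ring
  · refine h4.congr' ?_
    filter_upwards [hsm] with T hT
    have e1 : ∀ t : ℝ, ‖Pool.Agent.R313.FN.zp (δ T) p q t‖ = ⨆ x : unitInterval, z (δ T) (p + q * x) t := by
      intro t
      rw [ContinuousMap.norm_eq_iSup_norm]
      refine iSup_congr fun x => ?_
      rw [Pool.Agent.R313.FN.zp_apply p q hT, z_eq, Real.norm_of_nonneg (Pool.Agent.Y753.SHR.za_nonneg _ _ _)]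
    simp_rw [e1]
    ring

end Pool.Agent.Results.MP_f9aece_nt.RandomFunctionLocalMaxima
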