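import Pool.Agent.N748.GC.Dev2
import Pool.Agent.N748.GC.BDD
import Pool.Agent.N748.GC.DEG2

set_option autoImplicit false

/-!
# The threshold for the length of windows in which the moments of zeta are asymptotic, near the critical line
-/

namespace Pool.Agent.Results.MP_f9aece_nt.WindowThreshold

open MeasureTheory Filter Topology

/-- the arithmetic factor of the moment conjecture,
`a(k) = ∏_p (1 - 1/p)^{k²} Σ_m (k (k+1) ... (k+m-1) / m!)² p^{-m}` -/
noncomputable def ak (k : ℝ) : ℝ :=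
  ∏' p : Nat.Primes, ((1 - 1 / (p : ℝ)) ^ (k ^ 2) *
    ∑' m : ℕ, (∏ i ∈ Finset.range m, (k + i) / ((i : ℝ) + 1)) ^ 2 * (1 / (p : ℝ)) ^ m)

/-- `|ζ(1/2+d+iu)|^β` divided by its asymptotic mean value `a(β/2) (2d)^{-β²/4}` -/
noncomputable def Z (β d u : ℝ) : ℝ :=
  (2 * d) ^ (β ^ 2 / 4) / ak (β / 2) * ‖riemannZeta (1 / 2 + d + u * Complex.I)‖ ^ β

/-- the mean of `Z` over the window `[t, t+H]` -/
noncomputable def W (β d H t : ℝ) : ℝ := (1 / H) * ∫ u in t..(t + H), Z β d u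

/-- the mean deviation of the window means from `1`, for `0 ≤ t ≤ T` -/
noncomputable def dev (β d H T : ℝ) : ℝ := (1 / T) * ∫ t in (0:ℝ)..T, |W β d H t - 1|

open Pool.Agent.N748.GC in
lemma Z_eq (β d u : ℝ) : Z β d u = Zn (β / 2) d u := by
  unfold Z Zn ak aa lc
  rw [show (β / 2) ^ 2 = β ^ 2 / 4 by ring, show 2 * (β / 2) = β by ring]

open Pool.Agent.N748.GC in
/-- short windows are shorter than the square root -/
lemma short_sqrt {d : ℝ → ℝ} (hP : Pd d) {H : ℝ → ℝ} {θ : ℝ} (hH : ∀ᶠ T : ℝ in atTop, H T ≤ d T ^ (-θ)) :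
    ∀ᶠ T : ℝ in atTop, H T ≤ T ^ ((1:ℝ) / 2) := by
  filter_upwards [hH, hP.t0.eventually_le_const one_pos, hP.tL.eventually_ge_atTop 1, eventually_gt_atTop 1,
    win_short (θ := max θ 1) (lt_max_of_lt_right one_pos) le_rfl] with T g1 g2 g3 g4 g5
  have hL0 : 0 < Real.log T := Real.log_pos g4
  have hδp : 0 < d T := by
    have : 0 < d T * Real.log T := by linarith
    exact (pos_iff_pos_of_mul_pos this).mpr hL0
  refine g1.trans (le_trans ?_ (g5 (d T) (by rw [div_le_iff₀ hL0]; exact g3)))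
  exact Real.rpow_le_rpow_of_exponent_ge hδp g2 (neg_le_neg (le_max_left _ _))

theorem result (d : ℝ → ℝ) (hd : Tendsto d atTop (𝓝 0)) (hdL : Tendsto (fun T : ℝ => d T * Real.log T) atTop atTop)
    (H : ℝ → ℝ) (hH : ∀ᶠ T : ℝ in atTop, 0 < H T ∧ H T ≤ T) :
    (∀ β : ℝ, 0 < β → β < 2 →
      (Tendsto (fun T : ℝ => dev β (d T) (H T) T) atTop (𝓝 0) ↔ Tendsto H atTop atTop)) ∧
    (∀ β : ℝ, 2 ≤ β → β < 4 → ∀ θ : ℝ, β ^ 2 / 4 - 1 < θ → (∀ᶠ T : ℝ in atTop, d T ^ (-θ) ≤ H T) →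
      Tendsto (fun T : ℝ => dev β (d T) (H T) T) atTop (𝓝 0)) ∧
    (∀ β : ℝ, 0 < β → β < 4 → ∀ θ : ℝ, θ < β ^ 2 / 4 - 1 → (∀ᶠ T : ℝ in atTop, H T ≤ d T ^ (-θ)) →
      (∀ η : ℝ, 0 < η → Tendsto (fun T : ℝ => (1 / T) * (volume {t : ℝ | 0 ≤ t ∧ t ≤ T ∧
        η ≤ W β (d T) (H T) t}).toReal) atTop (𝓝 0)) ∧
      Tendsto (fun T : ℝ => dev β (d T) (H T) T) atTop (𝓝 2)) := by
  have hP : Pool.Agent.N748.GC.Pd d := ⟨hd, hdL⟩
  have hH0 : ∀ᶠ T : ℝ in atTop, 0 < H T := hH.mono fun _ h => h.1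
  have hHT : ∀ᶠ T : ℝ in atTop, H T ≤ T := hH.mono fun _ h => h.2
  have hW : ∀ β e h t : ℝ, W β e h t = (1 / h) * ∫ u in t..(t + h), Pool.Agent.N748.GC.Zn (β / 2) e u := by
    intro β e h t
    unfold W
    simp only [Z_eq]
  refine ⟨fun β h0 h2 => ⟨fun h => ?_, fun h => ?_⟩, fun β h2 h4 θ hθ hHθ => ?_, fun β h0 h4 θ hθ hHθ => ?_⟩
  · by_contra hcon
    rw [tendsto_atTop] at hcon
    push Not at hcon
    obtain ⟨b, hb⟩ := hcon
    obtain ⟨c, hc, hev⟩ := Pool.Agent.N748.GC.BDD.main Pool.Agent.N748.GC.coreF Pool.Agent.N748.GC.ERG.main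
      (β / 2) (by linarith) (by linarith) d hP (max b 1) (lt_max_of_lt_right one_pos)
    have h3 := h.eventually (gt_mem_nhds hc)
    obtain ⟨T, hT1, hT2, hT3, hT4⟩ := (hb.and_eventually (hev.and (h3.and hH0))).exists
    have h5 := hT2 (H T) hT4 (hT1.le.trans (le_max_left _ _))
    unfold dev at hT3
    simp only [hW] at hT3
    linarith
  · have := Pool.Agent.N748.GC.WIN.main Pool.Agent.N748.GC.coreF Pool.Agent.N748.GC.ERG.main
      (β / 2) (by linarith) (by linarith) d hP H h hHT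
    unfold dev
    simp only [hW]
    exact this
  · have h3 : (β / 2) ^ 2 - 1 < θ := by
      have : (β / 2) ^ 2 = β ^ 2 / 4 := by ring
      rw [this]; exact hθ
    have hθ0 : 0 < θ := by nlinarith
    have := Pool.Agent.N748.GC.win2F (β / 2) (by linarith) (by linarith) θ hθ0 h3 d hP H hHθ hHT
    unfold dev
    simp only [hW]
    exact this
  · have h3 : θ < (β / 2) ^ 2 - 1 := by
      have : (β / 2) ^ 2 = β ^ 2 / 4 := by ring
      rw [this]; exact hθ
    have h4' : β / 2 < 2 := by linarith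
    have h0' : 0 < β / 2 := by linarith
    have h5 := Pool.Agent.N748.GC.DEG2.main (β / 2) h0' h4' θ h3 d hP H hH0 hHθ
    have h6 := Pool.Agent.N748.GC.mean_win h0' h4' hP hH0 (short_sqrt hP hHθ)
    have h7 := Pool.Agent.N748.GC.dev_two (Y := fun T t => (1 / H T) * ∫ u in t..(t + H T),
      Pool.Agent.N748.GC.Zn (β / 2) (d T) u) ?_ ?_ h6 h5
    · refine ⟨fun η hη => ?_, ?_⟩
      · simp only [hW]
        exact h5 η hη
      · unfold dev
        simp only [hW]
        exact h7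
    · filter_upwards [hd.eventually_le_const (show (0:ℝ) < 1 / 4 by norm_num)] with T hT
      exact continuous_const.mul (Pool.Agent.N748.GC.WIN.prim_cont
        (Pool.Agent.N748.GC.Zn_cont' h0' (by linarith)) (H T))
    · filter_upwards [hH0, hdL.eventually_ge_atTop 1, eventually_gt_atTop 1] with T g1 g2 g3 t
      have hL0 : 0 < Real.log T := Real.log_pos g3
      have hδp : 0 < d T := by
        have : 0 < d T * Real.log T := by linarith
        exact (pos_iff_pos_of_mul_pos this).mpr hL0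
      refine mul_nonneg (by positivity) (intervalIntegral.integral_nonneg (by linarith) fun u _ =>
        Pool.Agent.N748.GC.Zn_nonneg h0' hδp.le u)

end Pool.Agent.Results.MP_f9aece_nt.WindowThreshold
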